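import Pool.Agent.R830.Sp.Ident

/-!
# Counting lemma and the `S₃`-alternant identity for the hexagonal weight multiplicities
-/

namespace Pool.Agent.R830.Sp

open Finset

/-- The multiplicity `min (d(x), min(a,c)) + 1` on the hexagon with parameters `a`, `c`. -/
def nu (a c : ℕ) (x y z : ℕ) : ℕ :=
  if x + y + z = a + 2 * c ∧ x ≤ a + c ∧ y ≤ a + c ∧ z ≤ a + c then
    min (min (min x (a + c - x)) (min (min y (a + c - y)) (min z (a + c - z)))) (min a c) + 1
  else 0

/-- The index set of the patterns. -/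
def TT (a c N : ℕ) : Finset (ℕ × ℕ × ℕ) :=
  ((range (a + 1)) ×ˢ (range (c + 1)) ×ˢ (range N)).filter (fun t => t.2.2 + t.2.1 ≤ c + t.1)

/-- The weight of a pattern. -/
def phi (a c : ℕ) (t : ℕ × ℕ × ℕ) : ℕ × ℕ × ℕ :=
  (t.2.1 + t.2.2, c + t.1 - t.2.2, a + c - t.1 - t.2.1)

theorem card_fiber (a c N x y z : ℕ) (hN : a + 2 * c < N) :
    ((TT a c N).filter (fun t => phi a c t = (x, y, z))).card = nu a c x y z := by
  by_cases h : x + y + z = a + 2 * c ∧ x ≤ a + c ∧ y ≤ a + c ∧ z ≤ a + c
  · have h1 : ((TT a c N).filter (fun t => phi a c t = (x, y, z))).card =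
        (Icc (c - z) (min c (min x (min y (a + c - z))))).card := by
      apply Finset.card_nbij' (fun t => t.2.1) (fun j => (x + y - j - c, j, x - j))
      · rintro ⟨i, j, k⟩ ht
        simp only [TT, phi, coe_filter, mem_filter, mem_product, mem_range, Prod.mk.injEq,
          Set.mem_setOf_eq] at ht
        simp only [coe_Icc, Set.mem_Icc]
        omega
      · intro j hj
        simp only [coe_Icc, Set.mem_Icc] at hj
        simp only [TT, phi, coe_filter, mem_filter, mem_product, mem_range, Prod.mk.injEq,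
          Set.mem_setOf_eq]
        omega
      · rintro ⟨i, j, k⟩ ht
        simp only [TT, phi, coe_filter, mem_filter, mem_product, mem_range, Prod.mk.injEq,
          Set.mem_setOf_eq] at ht
        simp only [Prod.mk.injEq, true_and]
        omega
      · intro j hj
        rfl
    rw [h1, Nat.card_Icc, nu, if_pos h]
    obtain ⟨h1, h2, h3, h4⟩ := h
    omega
  · rw [nu, if_neg h, Finset.card_eq_zero, Finset.filter_eq_empty_iff]
    rintro ⟨i, j, k⟩ ht
    simp only [TT, mem_filter, mem_product, mem_range] at ht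
    simp only [phi, Prod.mk.injEq]
    intro h2
    apply h
    omega

/-- The counting lemma. -/
theorem sum_nu {K : Type*} [CommRing K] (a c N : ℕ) (hN : a + 2 * c < N) (F : ℕ → ℕ → ℕ → K) :
    ∑ x ∈ range N, ∑ y ∈ range N, ∑ z ∈ range N, (nu a c x y z : K) * F x y z =
      ∑ i ∈ range (a + 1), ∑ j ∈ range (c + 1), ∑ k ∈ range (c + i - j + 1),
        F (j + k) (c + i - k) (a + c - i - j) := by
  have h1 : ∑ i ∈ range (a + 1), ∑ j ∈ range (c + 1), ∑ k ∈ range (c + i - j + 1),
        F (j + k) (c + i - k) (a + c - i - j) =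
      ∑ t ∈ TT a c N, F (phi a c t).1 (phi a c t).2.1 (phi a c t).2.2 := by
    rw [TT, sum_filter, sum_product]
    refine sum_congr rfl fun i hi => ?_
    rw [sum_product]
    refine sum_congr rfl fun j hj => ?_
    rw [← sum_filter]
    have h2 : (range N).filter (fun k => k + j ≤ c + i) = range (c + i - j + 1) := by
      ext k
      simp only [mem_filter, mem_range] at hi hj ⊢
      omega
    rw [h2]
    rfl
  have h3 : ∀ t ∈ TT a c N, phi a c t ∈ (range N) ×ˢ (range N) ×ˢ (range N) := by
    rintro ⟨i, j, k⟩ ht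
    simp only [TT, mem_filter, mem_product, mem_range] at ht
    simp only [phi, mem_product, mem_range]
    omega
  rw [h1, ← sum_fiberwise_of_maps_to h3, sum_product]
  refine sum_congr rfl fun x hx => ?_
  rw [sum_product]
  refine sum_congr rfl fun y hy => sum_congr rfl fun z hz => ?_
  have h4 : ∀ t ∈ (TT a c N).filter (fun t => phi a c t = (x, y, z)),
      F (phi a c t).1 (phi a c t).2.1 (phi a c t).2.2 = F x y z := by
    intro t ht
    rw [(mem_filter.1 ht).2]
  rw [sum_congr rfl h4, sum_const, card_fiber a c N x y z hN, nsmul_eq_mul]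

/-- The `S₃`-character. -/
def S {K : Type*} [Field K] (a c : ℕ) (x y z : K) : K :=
  ∑ i ∈ range (a + 1), ∑ j ∈ range (c + 1), ∑ k ∈ range (c + i - j + 1),
        x ^ (j + k) * y ^ (c + i - k) * z ^ (a + c - i - j)

theorem geom {K : Type*} [Field K] (n : ℕ) (x y : K) :
    (∑ i ∈ range (n + 1), x ^ i * y ^ (n - i)) * (x - y) = x ^ (n + 1) - y ^ (n + 1) := by
  have := (Commute.all x y).geom_sum₂_mul (n + 1)
  simpa using this

theorem S_mul {K : Type*} [Field K] (a c : ℕ) (x y z : K) :
    S a c x y z * ((x - y) * (y - z) * (x - z)) =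
      det3 x y z (x ^ (a + c)) (y ^ (a + c)) (z ^ (a + c)) (x ^ c) (y ^ c) (z ^ c) := by
  have h1 : S a c x y z * (x - y) =
      x ^ (c + 1) * (∑ i ∈ range (a + 1), x ^ i * z ^ (a - i)) *
        (∑ j ∈ range (c + 1), y ^ j * z ^ (c - j)) -
      y ^ (c + 1) * (∑ i ∈ range (a + 1), y ^ i * z ^ (a - i)) *
        (∑ j ∈ range (c + 1), x ^ j * z ^ (c - j)) := by
    rw [S, sum_mul, mul_assoc, mul_assoc, sum_mul_sum, sum_mul_sum, mul_sum, mul_sum,
      ← sum_sub_distrib]
    refine sum_congr rfl fun i hi => ?_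
    rw [sum_mul, mul_sum, mul_sum, ← sum_sub_distrib]
    refine sum_congr rfl fun j hj => ?_
    simp only [mem_range] at hi hj
    have h2 : ∑ k ∈ range (c + i - j + 1), x ^ (j + k) * y ^ (c + i - k) * z ^ (a + c - i - j) =
        (x ^ j * y ^ j * z ^ (a + c - i - j)) *
          ∑ k ∈ range (c + i - j + 1), x ^ k * y ^ (c + i - j - k) := by
      rw [mul_sum]
      refine sum_congr rfl fun k hk => ?_
      simp only [mem_range] at hk
      have e1 : y ^ (c + i - k) = y ^ j * y ^ (c + i - j - k) := by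
        rw [← pow_add]; congr 1; omega
      rw [e1, pow_add]
      ring
    rw [h2, mul_assoc, geom]
    have e2 : z ^ (a + c - i - j) = z ^ (a - i) * z ^ (c - j) := by
      rw [← pow_add]; congr 1; omega
    have e3 : y ^ j * y ^ (c + i - j + 1) = y ^ (c + 1) * y ^ i := by
      rw [← pow_add, ← pow_add]; congr 1; omega
    have e4 : x ^ j * x ^ (c + i - j + 1) = x ^ (c + 1) * x ^ i := by
      rw [← pow_add, ← pow_add]; congr 1; omega
    rw [e2]
    linear_combination (y ^ j * z ^ (a - i) * z ^ (c - j)) * e4 -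
      (x ^ j * z ^ (a - i) * z ^ (c - j)) * e3
  have h3 : S a c x y z * ((x - y) * (y - z) * (x - z)) =
      (S a c x y z * (x - y)) * ((y - z) * (x - z)) := by ring
  rw [h3, h1]
  have g1 := geom a x z
  have g2 := geom c y z
  have g3 := geom a y z
  have g4 := geom c x z
  set G1 := ∑ i ∈ range (a + 1), x ^ i * z ^ (a - i)
  set G2 := ∑ i ∈ range (c + 1), y ^ i * z ^ (c - i)
  set G3 := ∑ i ∈ range (a + 1), y ^ i * z ^ (a - i)
  set G4 := ∑ i ∈ range (c + 1), x ^ i * z ^ (c - i)
  have h5 : (x ^ (c + 1) * G1 * G2 - y ^ (c + 1) * G3 * G4) * ((y - z) * (x - z)) =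
      x ^ (c + 1) * (G1 * (x - z)) * (G2 * (y - z)) -
        y ^ (c + 1) * (G3 * (y - z)) * (G4 * (x - z)) := by ring
  rw [h5, g1, g2, g3, g4, det3]
  ring

end Pool.Agent.R830.Sp
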