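import Pool.Agent.R830.Sp.Comb

/-!
# The branching identity over a field
-/

namespace Pool.Agent.R830.Sp

open Finset

section

variable {K : Type*} [Field K]

/-- The character of `V_n` at `t`. -/
def U (t : K) (n : ℕ) : K := ∑ j ∈ range (n + 1), t ^ ((n : ℤ) - 2 * j)

theorem mm_mul_U (t : K) (ht : t ≠ 0) (n : ℕ) :
    mm t * U t n = t ^ (n + 1) - t⁻¹ ^ (n + 1) := by
  have h : ∀ j ∈ range (n + 1), mm t * t ^ ((n : ℤ) - 2 * j) =
      t ^ ((n : ℤ) + 1 - 2 * j) - t ^ ((n : ℤ) + 1 - 2 * ((j + 1 : ℕ) : ℤ)) := by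
    intro j _
    have e1 : t ^ ((n : ℤ) + 1 - 2 * j) = t ^ ((n : ℤ) - 2 * j) * t := by
      rw [← zpow_add_one₀ ht]; congr 1; ring
    have e2 : t ^ ((n : ℤ) + 1 - 2 * ((j + 1 : ℕ) : ℤ)) = t ^ ((n : ℤ) - 2 * j) * t⁻¹ := by
      rw [← zpow_sub_one₀ ht]; congr 1; push_cast; ring
    rw [e1, e2, mm]; ring
  rw [U, mul_sum, sum_congr rfl h,
    Finset.sum_range_sub' (fun j : ℕ => t ^ ((n : ℤ) + 1 - 2 * (j : ℤ)))]
  have e3 : t ^ ((n : ℤ) + 1 - 2 * ((0 : ℕ) : ℤ)) = t ^ (n + 1) := by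
    rw [← zpow_natCast]; simp
  have e4 : t ^ ((n : ℤ) + 1 - 2 * ((n + 1 : ℕ) : ℤ)) = t⁻¹ ^ (n + 1) := by
    rw [inv_pow, ← zpow_natCast, ← zpow_neg]; congr 1; push_cast; ring
  rw [e3, e4]

/-- Triple sums with the hexagonal weights. -/
def W (a c N : ℕ) (F : ℕ → ℕ → ℕ → K) : K :=
  ∑ x ∈ range N, ∑ y ∈ range N, ∑ z ∈ range N, (nu a c x y z : K) * F x y z

theorem W_mul (a c N : ℕ) (F : ℕ → ℕ → ℕ → K) (r : K) :
    W a c N F * r = W a c N (fun x y z => F x y z * r) := by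
  simp only [W, sum_mul, mul_assoc]

theorem W_add (a c N : ℕ) (F G : ℕ → ℕ → ℕ → K) :
    W a c N (fun x y z => F x y z + G x y z) = W a c N F + W a c N G := by
  simp only [W, mul_add, sum_add_distrib]

theorem W_sub (a c N : ℕ) (F G : ℕ → ℕ → ℕ → K) :
    W a c N (fun x y z => F x y z - G x y z) = W a c N F - W a c N G := by
  simp only [W, mul_sub, sum_sub_distrib]

/-- `xyz S(x,y,z)`. -/
def E (a c : ℕ) (x y z : K) : K := x * y * z * S a c x y z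

theorem W_E (a c N : ℕ) (hN : a + 2 * c < N) (x y z : K) :
    W a c N (fun l m n => x ^ (l + 1) * y ^ (m + 1) * z ^ (n + 1)) = E a c x y z := by
  rw [W, sum_nu a c N hN, E, S, mul_sum]
  refine sum_congr rfl fun i _ => ?_
  rw [mul_sum]
  refine sum_congr rfl fun j _ => ?_
  rw [mul_sum]
  refine sum_congr rfl fun k _ => ?_
  ring

/-- The Vandermonde factor. -/
def V (x y z : K) : K :=
  (x + x⁻¹ - y - y⁻¹) * (y + y⁻¹ - z - z⁻¹) * (x + x⁻¹ - z - z⁻¹)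

theorem E_mul_V (a c : ℕ) (x y z : K) (hx : x ≠ 0) (hy : y ≠ 0) (hz : z ≠ 0) :
    E a c x y z * V x y z =
      gg x y z (x ^ (a + c)) (y ^ (a + c)) (z ^ (a + c)) (x ^ c) (y ^ c) (z ^ c) := by
  have h1 : ∀ u v : K, u ≠ 0 → v ≠ 0 → u + u⁻¹ - v - v⁻¹ = (u - v) * (1 - u⁻¹ * v⁻¹) := by
    intro u v hu hv
    field_simp
    ring
  rw [V, h1 x y hx hy, h1 y z hy hz, h1 x z hx hz, gg, ← S_mul, E]
  ring

theorem field_ident (a c N : ℕ) (hN : a + 2 * c < N) (x y z : K) (hx : x ≠ 0) (hy : y ≠ 0)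
    (hz : z ≠ 0) :
    W a c N (fun l m n => U x l * U y m * U z n) * (mm x * mm y * mm z * V x y z) =
    dd (mm (x ^ (a + c) * x ^ 3)) (mm (x ^ c * x ^ 2)) (mm x) (mm (y ^ (a + c) * y ^ 3))
      (mm (y ^ c * y ^ 2)) (mm y) (mm (z ^ (a + c) * z ^ 3)) (mm (z ^ c * z ^ 2)) (mm z)
    - 2 * dd (mm (x ^ (a + c) * x ^ 2)) (mm (x ^ c * x)) (mm x) (mm (y ^ (a + c) * y ^ 2))
      (mm (y ^ c * y)) (mm y) (mm (z ^ (a + c) * z ^ 2)) (mm (z ^ c * z)) (mm z)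
    + dd (mm (x ^ (a + c) * x)) (mm (x ^ c)) (mm x) (mm (y ^ (a + c) * y)) (mm (y ^ c)) (mm y)
      (mm (z ^ (a + c) * z)) (mm (z ^ c)) (mm z) := by
  have hx' := inv_ne_zero hx
  have hy' := inv_ne_zero hy
  have hz' := inv_ne_zero hz
  have h1 : W a c N (fun l m n => U x l * U y m * U z n) * (mm x * mm y * mm z) =
      E a c x y z - E a c x⁻¹ y z - E a c x y⁻¹ z - E a c x y z⁻¹ + E a c x⁻¹ y⁻¹ z
        + E a c x⁻¹ y z⁻¹ + E a c x y⁻¹ z⁻¹ - E a c x⁻¹ y⁻¹ z⁻¹ := by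
    rw [W_mul]
    have h2 : (fun l m n => U x l * U y m * U z n * (mm x * mm y * mm z)) =
        (fun l m n => x ^ (l + 1) * y ^ (m + 1) * z ^ (n + 1)
          - x⁻¹ ^ (l + 1) * y ^ (m + 1) * z ^ (n + 1)
          - x ^ (l + 1) * y⁻¹ ^ (m + 1) * z ^ (n + 1)
          - x ^ (l + 1) * y ^ (m + 1) * z⁻¹ ^ (n + 1)
          + x⁻¹ ^ (l + 1) * y⁻¹ ^ (m + 1) * z ^ (n + 1)
          + x⁻¹ ^ (l + 1) * y ^ (m + 1) * z⁻¹ ^ (n + 1)
          + x ^ (l + 1) * y⁻¹ ^ (m + 1) * z⁻¹ ^ (n + 1)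
          - x⁻¹ ^ (l + 1) * y⁻¹ ^ (m + 1) * z⁻¹ ^ (n + 1)) := by
      funext l m n
      have e1 := mm_mul_U x hx l
      have e2 := mm_mul_U y hy m
      have e3 := mm_mul_U z hz n
      have e4 : U x l * U y m * U z n * (mm x * mm y * mm z) =
        (mm x * U x l) * (mm y * U y m) * (mm z * U z n) := by ring
      rw [e4, e1, e2, e3]
      ring
    rw [h2, W_sub, W_add, W_add, W_add, W_sub, W_sub, W_sub]
    simp only [W_E a c N hN]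
  have hV : ∀ u v w : K, V u⁻¹ v w = V u v w ∧ V u v⁻¹ w = V u v w ∧ V u v w⁻¹ = V u v w := by
    intro u v w
    simp only [V, inv_inv]
    refine ⟨by ring, by ring, by ring⟩
  have i1 := E_mul_V a c x y z hx hy hz
  have i2 := E_mul_V a c x⁻¹ y z hx' hy hz
  have i3 := E_mul_V a c x y⁻¹ z hx hy' hz
  have i4 := E_mul_V a c x y z⁻¹ hx hy hz'
  have i5 := E_mul_V a c x⁻¹ y⁻¹ z hx' hy' hz
  have i6 := E_mul_V a c x⁻¹ y z⁻¹ hx' hy hz'
  have i7 := E_mul_V a c x y⁻¹ z⁻¹ hx hy' hz'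
  have i8 := E_mul_V a c x⁻¹ y⁻¹ z⁻¹ hx' hy' hz'
  rw [(hV _ _ _).1] at i2
  rw [(hV _ _ _).2.1] at i3
  rw [(hV _ _ _).2.2] at i4
  rw [(hV _ _ _).1, (hV _ _ _).2.1] at i5
  rw [(hV _ _ _).1, (hV _ _ _).2.2] at i6
  rw [(hV _ _ _).2.1, (hV _ _ _).2.2] at i7
  rw [(hV _ _ _).1, (hV _ _ _).2.1, (hV _ _ _).2.2] at i8
  simp only [inv_pow] at i2 i3 i4 i5 i6 i7 i8
  have hb := big x y z (x ^ (a + c)) (y ^ (a + c)) (z ^ (a + c)) (x ^ c) (y ^ c) (z ^ c) hx hy hz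
    (pow_ne_zero _ hx) (pow_ne_zero _ hy) (pow_ne_zero _ hz) (pow_ne_zero _ hx)
    (pow_ne_zero _ hy) (pow_ne_zero _ hz)
  rw [← hb, ← mul_assoc, h1, ← i1, ← i2, ← i3, ← i4, ← i5, ← i6, ← i7, ← i8]
  ring

/-- The alternant over a field. -/
def altK (t : Fin 3 → K) (l : Fin 3 → ℤ) : K :=
  Matrix.det (Matrix.of (fun i j : Fin 3 => t i ^ (l j) - t i ^ (-(l j))))

theorem altK_eq (t : Fin 3 → K) (l : Fin 3 → ℤ) : altK t l =
    dd (t 0 ^ l 0 - t 0 ^ (-l 0)) (t 0 ^ l 1 - t 0 ^ (-l 1)) (t 0 ^ l 2 - t 0 ^ (-l 2))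
      (t 1 ^ l 0 - t 1 ^ (-l 0)) (t 1 ^ l 1 - t 1 ^ (-l 1)) (t 1 ^ l 2 - t 1 ^ (-l 2))
      (t 2 ^ l 0 - t 2 ^ (-l 0)) (t 2 ^ l 1 - t 2 ^ (-l 1)) (t 2 ^ l 2 - t 2 ^ (-l 2)) := by
  rw [altK, Matrix.det_fin_three, dd]
  simp only [Matrix.of_apply]

theorem mm_zpow (t : K) (_ht : t ≠ 0) (u : K) (l : ℤ) (h : u = t ^ l) : mm u = t ^ l - t ^ (-l) := by
  rw [mm, h, zpow_neg]

theorem altK_rho (t : Fin 3 → K) (ht : ∀ i, t i ≠ 0) :
    altK t ![3, 2, 1] = mm (t 0) * mm (t 1) * mm (t 2) * V (t 0) (t 1) (t 2) := by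
  rw [altK_eq]
  have h0 := ht 0
  have h1 := ht 1
  have h2 := ht 2
  simp only [Matrix.cons_val_zero, Matrix.cons_val_one, Matrix.cons_val]
  unfold dd mm V
  simp only [zpow_neg]
  have e1 : ∀ u : K, u ^ (1 : ℤ) = u := fun u => zpow_one u
  have e2 : ∀ u : K, u ^ (2 : ℤ) = u ^ 2 := fun u => by norm_cast
  have e3 : ∀ u : K, u ^ (3 : ℤ) = u ^ 3 := fun u => by norm_cast
  simp only [e1, e2, e3]
  field_simp
  ring

theorem W_altK (a c N : ℕ) (hN : a + 2 * c < N) (t : Fin 3 → K) (ht : ∀ i, t i ≠ 0) :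
    W a c N (fun l m n => U (t 0) l * U (t 1) m * U (t 2) n) * altK t ![3, 2, 1] =
      altK t ![a + c + 3, c + 2, 1] - 2 * altK t ![a + c + 2, c + 1, 1]
        + altK t ![a + c + 1, c, 1] := by
  rw [altK_rho t ht, field_ident a c N hN _ _ _ (ht 0) (ht 1) (ht 2), altK_eq, altK_eq, altK_eq]
  simp only [Matrix.cons_val_zero, Matrix.cons_val_one, Matrix.cons_val]
  have f1 : ∀ u : K, u ≠ 0 → mm (u ^ (a + c) * u ^ 3) = u ^ ((a : ℤ) + c + 3) - u ^ (-((a : ℤ) + c + 3)) :=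
    fun u hu => mm_zpow u hu _ _ (by rw [← pow_add, ← zpow_natCast]; congr 1)
  have f2 : ∀ u : K, u ≠ 0 → mm (u ^ (a + c) * u ^ 2) = u ^ ((a : ℤ) + c + 2) - u ^ (-((a : ℤ) + c + 2)) :=
    fun u hu => mm_zpow u hu _ _ (by rw [← pow_add, ← zpow_natCast]; congr 1)
  have f3 : ∀ u : K, u ≠ 0 → mm (u ^ (a + c) * u) = u ^ ((a : ℤ) + c + 1) - u ^ (-((a : ℤ) + c + 1)) :=
    fun u hu => mm_zpow u hu _ _ (by rw [← pow_succ, ← zpow_natCast]; congr 1)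
  have f4 : ∀ u : K, u ≠ 0 → mm (u ^ c * u ^ 2) = u ^ ((c : ℤ) + 2) - u ^ (-((c : ℤ) + 2)) :=
    fun u hu => mm_zpow u hu _ _ (by rw [← pow_add, ← zpow_natCast]; congr 1)
  have f5 : ∀ u : K, u ≠ 0 → mm (u ^ c * u) = u ^ ((c : ℤ) + 1) - u ^ (-((c : ℤ) + 1)) :=
    fun u hu => mm_zpow u hu _ _ (by rw [← pow_succ, ← zpow_natCast]; congr 1)
  have f6 : ∀ u : K, u ≠ 0 → mm (u ^ c) = u ^ (c : ℤ) - u ^ (-(c : ℤ)) :=
    fun u hu => mm_zpow u hu _ _ (by rw [← zpow_natCast])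
  have f7 : ∀ u : K, u ≠ 0 → mm u = u ^ (1 : ℤ) - u ^ (-(1 : ℤ)) :=
    fun u hu => mm_zpow u hu _ _ (by rw [zpow_one])
  rw [f1 _ (ht 0), f1 _ (ht 1), f1 _ (ht 2), f2 _ (ht 0), f2 _ (ht 1), f2 _ (ht 2),
    f3 _ (ht 0), f3 _ (ht 1), f3 _ (ht 2), f4 _ (ht 0), f4 _ (ht 1), f4 _ (ht 2),
    f5 _ (ht 0), f5 _ (ht 1), f5 _ (ht 2), f6 _ (ht 0), f6 _ (ht 1), f6 _ (ht 2),
    f7 _ (ht 0), f7 _ (ht 1), f7 _ (ht 2)]

/-- Telescoping. -/
theorem telescope (D : ℤ → K) (h1 : D (-1) = 0) (h2 : D (-2) = 0) (b : ℕ) :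
    ∑ c ∈ range (b + 1), ((b : K) - c + 1) * (D c - 2 * D (c - 1) + D (c - 2)) = D b := by
  have hs : ∀ n : ℕ, ∑ c ∈ range n, (D c - 2 * D ((c : ℤ) - 1) + D ((c : ℤ) - 2)) =
      D ((n : ℤ) - 1) - D ((n : ℤ) - 2) := by
    intro n
    induction n with
    | zero => simp [h1, h2]
    | succ n ih =>
      rw [sum_range_succ, ih]
      have e1 : (((n + 1 : ℕ) : ℤ) - 1) = n := by push_cast; ring
      have e2 : (((n + 1 : ℕ) : ℤ) - 2) = (n : ℤ) - 1 := by push_cast; ring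
      rw [e1, e2]
      ring
  induction b with
  | zero => simp [h1, h2]
  | succ b ih =>
    have h3 : ∑ c ∈ range (b + 1 + 1), (((b + 1 : ℕ) : K) - c + 1) *
        (D c - 2 * D ((c : ℤ) - 1) + D ((c : ℤ) - 2)) =
        ∑ c ∈ range (b + 1), ((b : K) - c + 1) * (D c - 2 * D ((c : ℤ) - 1) + D ((c : ℤ) - 2)) +
        ∑ c ∈ range (b + 1 + 1), (D c - 2 * D ((c : ℤ) - 1) + D ((c : ℤ) - 2)) := by
      rw [sum_range_succ, sum_range_succ _ (b + 1), ← add_assoc, ← sum_add_distrib]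
      congr 1
      · refine sum_congr rfl fun c _ => ?_
        push_cast
        ring
      · push_cast
        ring
    rw [h3, ih, hs]
    have e1 : (((b + 1 + 1 : ℕ) : ℤ) - 1) = ((b + 1 : ℕ) : ℤ) := by push_cast; ring
    have e2 : (((b + 1 + 1 : ℕ) : ℤ) - 2) = (b : ℤ) := by push_cast; ring
    rw [e1, e2]
    ring

/-- The multiplicity function. -/
def mu' (a b x y z : ℕ) : ℕ := ∑ k ∈ range (b + 1), (k + 1) * nu a (b - k) x y z

theorem sum_mu' (a b N : ℕ) (F : ℕ → ℕ → ℕ → K) :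
    (∑ x ∈ range N, ∑ y ∈ range N, ∑ z ∈ range N, (mu' a b x y z : K) * F x y z) =
      ∑ k ∈ range (b + 1), ((k : K) + 1) * W a (b - k) N F := by
  have h1 : ∀ x y z : ℕ, (mu' a b x y z : K) * F x y z =
      ∑ k ∈ range (b + 1), ((k : K) + 1) * ((nu a (b - k) x y z : K) * F x y z) := by
    intro x y z
    rw [mu', Nat.cast_sum, sum_mul]
    refine sum_congr rfl fun k _ => ?_
    push_cast
    ring
  have h2 : ∀ k : ℕ, ((k : K) + 1) * W a (b - k) N F =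
      ∑ x ∈ range N, ∑ y ∈ range N, ∑ z ∈ range N,
        ((k : K) + 1) * ((nu a (b - k) x y z : K) * F x y z) := by
    intro k
    rw [W, mul_sum]
    refine sum_congr rfl fun x _ => ?_
    rw [mul_sum]
    refine sum_congr rfl fun y _ => ?_
    rw [mul_sum]
  simp only [h1, h2]
  rw [sum_comm (s := range (b + 1))]
  refine sum_congr rfl fun x _ => ?_
  rw [sum_comm (s := range (b + 1))]
  refine sum_congr rfl fun y _ => ?_
  rw [sum_comm (s := range (b + 1))]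

theorem altK_zero1 (t : Fin 3 → K) (l : ℤ) : altK t ![l, 1, 1] = 0 := by
  rw [altK_eq, dd]
  simp only [Matrix.cons_val_zero, Matrix.cons_val_one, Matrix.cons_val]
  ring

theorem altK_zero2 (t : Fin 3 → K) (l : ℤ) : altK t ![l, 0, 1] = 0 := by
  rw [altK_eq, dd]
  simp only [Matrix.cons_val_zero, Matrix.cons_val_one, Matrix.cons_val, neg_zero, sub_self]
  ring

theorem final_K (a b N : ℕ) (hN : a + 2 * b < N) (t : Fin 3 → K) (ht : ∀ i, t i ≠ 0) :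
    (∑ x ∈ range N, ∑ y ∈ range N, ∑ z ∈ range N,
      (mu' a b x y z : K) * (U (t 0) x * U (t 1) y * U (t 2) z)) * altK t ![3, 2, 1] =
      altK t ![a + b + 3, b + 2, 1] := by
  have h1 := sum_mu' a b N (fun x y z => U (t 0) x * U (t 1) y * U (t 2) z)
  have h2 := sum_range_reflect (fun k => ((k : K) + 1) *
    (W a (b - k) N (fun x y z => U (t 0) x * U (t 1) y * U (t 2) z))) (b + 1)
  rw [h1, ← h2, sum_mul]
  have h3 := telescope (fun c : ℤ => altK t ![a + c + 3, c + 2, 1])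
    (by simpa using altK_zero1 t _) (by simpa using altK_zero2 t _) b
  rw [← h3]
  refine sum_congr rfl fun c hc => ?_
  simp only [mem_range] at hc
  have e1 : b - (b + 1 - 1 - c) = c := by omega
  have e2 : ((b + 1 - 1 - c : ℕ) : K) = (b : K) - c := by
    rw [Nat.add_sub_cancel, Nat.cast_sub (by omega)]
  have e3 := W_altK a c N (by omega) t ht
  have e4 : altK t ![(a : ℤ) + ((c : ℤ) - 1) + 3, (c : ℤ) - 1 + 2, 1] =
      altK t ![(a : ℤ) + c + 2, (c : ℤ) + 1, 1] := by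
    congr 2
    · ring
    · congr 1; ring
  have e5 : altK t ![(a : ℤ) + ((c : ℤ) - 2) + 3, (c : ℤ) - 2 + 2, 1] =
      altK t ![(a : ℤ) + c + 1, (c : ℤ), 1] := by
    congr 2
    · ring
    · congr 1; ring
  rw [e1, e2, mul_assoc, e3, e4, e5]

end

end Pool.Agent.R830.Sp
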