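import Mathlib

namespace Pool.Agent.R830.Sp

/-- The alternant of `S₃`. -/
def det3 {K : Type*} [Field K] (x y z P Q R A B C : K) : K :=
  P * x ^ 2 * (B * y) - P * x ^ 2 * (C * z) - Q * y ^ 2 * (A * x) + Q * y ^ 2 * (C * z)
    + R * z ^ 2 * (A * x) - R * z ^ 2 * (B * y)

/-- `g`. -/
def gg {K : Type*} [Field K] (x y z P Q R A B C : K) : K :=
  x * y * z * ((1 - x⁻¹ * y⁻¹) * (1 - y⁻¹ * z⁻¹) * (1 - x⁻¹ * z⁻¹)) * det3 x y z P Q R A B C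

/-- A `3 × 3` determinant with rows `(u_i, v_i, w_i)`. -/
def dd {K : Type*} [Field K] (u1 v1 w1 u2 v2 w2 u3 v3 w3 : K) : K :=
  u1 * v2 * w3 - u1 * w2 * v3 - v1 * u2 * w3 + v1 * w2 * u3 + w1 * u2 * v3 - w1 * v2 * u3

/-- `t - t⁻¹`. -/
def mm {K : Type*} [Field K] (t : K) : K := t - t⁻¹

theorem big {K : Type*} [Field K] (x y z P Q R A B C : K) (hx : x ≠ 0) (hy : y ≠ 0) (hz : z ≠ 0)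
    (hP : P ≠ 0) (hQ : Q ≠ 0) (hR : R ≠ 0) (hA : A ≠ 0) (hB : B ≠ 0) (hC : C ≠ 0) :
    gg x y z P Q R A B C - gg x⁻¹ y z P⁻¹ Q R A⁻¹ B C - gg x y⁻¹ z P Q⁻¹ R A B⁻¹ C
      - gg x y z⁻¹ P Q R⁻¹ A B C⁻¹ + gg x⁻¹ y⁻¹ z P⁻¹ Q⁻¹ R A⁻¹ B⁻¹ C
      + gg x⁻¹ y z⁻¹ P⁻¹ Q R⁻¹ A⁻¹ B C⁻¹ + gg x y⁻¹ z⁻¹ P Q⁻¹ R⁻¹ A B⁻¹ C⁻¹
      - gg x⁻¹ y⁻¹ z⁻¹ P⁻¹ Q⁻¹ R⁻¹ A⁻¹ B⁻¹ C⁻¹ =
    dd (mm (P * x ^ 3)) (mm (A * x ^ 2)) (mm x) (mm (Q * y ^ 3)) (mm (B * y ^ 2)) (mm y)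
      (mm (R * z ^ 3)) (mm (C * z ^ 2)) (mm z)
    - 2 * dd (mm (P * x ^ 2)) (mm (A * x)) (mm x) (mm (Q * y ^ 2)) (mm (B * y)) (mm y)
      (mm (R * z ^ 2)) (mm (C * z)) (mm z)
    + dd (mm (P * x)) (mm A) (mm x) (mm (Q * y)) (mm B) (mm y)
      (mm (R * z)) (mm C) (mm z) := by
  unfold gg det3 dd mm
  field_simp
  ring

end Pool.Agent.R830.Sp
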